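import Pool.Agent.H487.GA.Stm

set_option autoImplicit false

/-!
# GA, task LGV: the good heights on dyadic intervals (helper903)
-/

open Finset Complex Filter Topology Metric Set MeasureTheory

namespace Pool.Agent.H903.GA

open Pool.Agent.Helper242.KK (FT Ph)
open Pool.Agent.H477.Jen
open Pool.Agent.H477.E
open Pool.Agent.H487.GA

/-- **S_LGV** -/
theorem lgv_proof : Pool.Agent.H477.E.S_LGU → S_LGV := by
  intro hLGU η hη hη1
  obtain ⟨c, hc, k0, T0, hLG⟩ := hLGU η hη hη1
  obtain ⟨k1, hk1⟩ := exists_nat_gt (2 * Real.log 20 / c)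
  rw [div_lt_iff₀ hc] at hk1
  refine ⟨c / 2, by positivity, max k0 k1, max T0 1, ?_⟩
  intro T hT k hk hkT
  have hT0 : T0 ≤ T := (le_max_left _ _).trans hT
  have hT1 : 1 ≤ T := (le_max_right _ _).trans hT
  have hTp : 0 < T := by linarith
  have hk0 : k0 ≤ k := (le_max_left _ _).trans hk
  have hkk1 : (k1 : ℝ) ≤ k := by exact_mod_cast (le_max_right _ _).trans hk
  have hlog : 300 ≤ Real.log T := by
    have : (0 : ℝ) ≤ k := Nat.cast_nonneg k
    linarith
  have hlog2 : Real.log (2 * T) = Real.log 2 + Real.log T :=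
    Real.log_mul (by norm_num) hTp.ne'
  have hl2 : Real.log 2 ≤ 1 := by
    have := Real.log_two_lt_d9
    linarith
  have hl20 : 0 < Real.log 2 := Real.log_pos (by norm_num)
  obtain ⟨L, hL⟩ : ∃ L : ℝ, L = Real.log (2 * T) := ⟨_, rfl⟩
  rw [← hL] at hlog2
  have hL0 : 0 < L := by linarith
  obtain ⟨h, hh⟩ : ∃ h : ℝ, h = T / (4 * L) := ⟨_, rfl⟩
  have hhp : 0 < h := by rw [hh]; positivity
  have hTj : ∀ j : ℕ, T ≤ T + j * h := fun j => by
    have : 0 ≤ (j : ℝ) * h := by positivity
    linarith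
  have hex : ∀ j : ℕ, ∃ B : Set ℝ, MeasurableSet B ∧
      volume B ≤ ENNReal.ofReal (Real.exp (-c * k) * ((T + j * h) / Real.log (T + j * h))) ∧
      ∀ t : ℝ, |t - (T + j * h)| ≤ (T + j * h) / (4 * Real.log (T + j * h)) → t ∉ B →
        LGd (FT Ph) k (lamT (T + j * h)) t η := by
    intro j
    exact hLG (T + j * h) (hT0.trans (hTj j)) k hk0
      (hkT.trans (Real.log_le_log hTp (hTj j)))
  choose B hBm hBv hBt using hex
  obtain ⟨J, hJ⟩ : ∃ J : ℕ, J = ⌊4 * L⌋₊ := ⟨_, rfl⟩
  have hJL : (J : ℝ) ≤ 4 * L := by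
    rw [hJ]
    exact Nat.floor_le (by positivity)
  have hjT : ∀ j : ℕ, j ≤ J → T + j * h ≤ 2 * T := by
    intro j hj
    have h1 : (j : ℝ) ≤ 4 * L := (by exact_mod_cast hj : (j : ℝ) ≤ J).trans hJL
    have h2 : (j : ℝ) * h ≤ 4 * L * h := mul_le_mul_of_nonneg_right h1 hhp.le
    have h3 : 4 * L * h = T := by
      rw [hh]
      field_simp
    linarith
  refine ⟨⋃ j ∈ Finset.range (J + 1), B j, ?_, ?_, ?_⟩
  · exact Finset.measurableSet_biUnion _ fun j _ => hBm j
  · have h1 : ∀ j ∈ Finset.range (J + 1), volume (B j) ≤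
        ENNReal.ofReal (Real.exp (-c * k) * (2 * T / Real.log T)) := by
      intro j hj
      refine (hBv j).trans (ENNReal.ofReal_le_ofReal ?_)
      refine mul_le_mul_of_nonneg_left ?_ (Real.exp_pos _).le
      exact div_le_div₀ (by positivity) (hjT j (Nat.lt_succ_iff.1 (Finset.mem_range.1 hj)))
        (by linarith) (Real.log_le_log hTp (hTj j))
    refine (measure_biUnion_finset_le _ _).trans ((Finset.sum_le_sum h1).trans ?_)
    rw [Finset.sum_const, Finset.card_range, nsmul_eq_mul, ← ENNReal.ofReal_natCast,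
      ← ENNReal.ofReal_mul (Nat.cast_nonneg _)]
    refine ENNReal.ofReal_le_ofReal ?_
    have h2 : ((J + 1 : ℕ) : ℝ) ≤ 5 * Real.log T := by
      push_cast
      linarith
    have h3 : 20 ≤ Real.exp (c / 2 * k) := by
      have h4 : Real.log 20 ≤ c / 2 * k := by
        have h5 : (k1 : ℝ) * c ≤ k * c := mul_le_mul_of_nonneg_right hkk1 hc.le
        linarith
      calc (20 : ℝ) = Real.exp (Real.log 20) := (Real.exp_log (by norm_num)).symm
        _ ≤ _ := Real.exp_le_exp.2 h4
    have h4 : Real.exp (-(c / 2) * k) = Real.exp (c / 2 * k) * Real.exp (-c * k) := by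
      rw [← Real.exp_add]
      congr 1
      ring
    have h5 : 0 < Real.exp (-c * k) := Real.exp_pos _
    calc ((J + 1 : ℕ) : ℝ) * (Real.exp (-c * k) * (2 * T / Real.log T))
        ≤ (5 * Real.log T) * (Real.exp (-c * k) * (2 * T / Real.log T)) :=
          mul_le_mul_of_nonneg_right h2 (by positivity)
      _ = 10 * (Real.exp (-c * k) * T) := by
          field_simp
          ring
      _ ≤ Real.exp (c / 2 * k) * (Real.exp (-c * k) * T) :=
          mul_le_mul_of_nonneg_right (by linarith) (by positivity)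
      _ = Real.exp (-(c / 2) * k) * T := by
          rw [h4]
          ring
  · intro t ht1 ht2 htB
    obtain ⟨j, hj⟩ : ∃ j : ℕ, j = ⌊(t - T) / h⌋₊ := ⟨_, rfl⟩
    have h0 : 0 ≤ (t - T) / h := div_nonneg (by linarith) hhp.le
    have h1 : (j : ℝ) ≤ (t - T) / h := by rw [hj]; exact Nat.floor_le h0
    have h2 : (t - T) / h < j + 1 := by rw [hj]; exact Nat.lt_floor_add_one _
    rw [le_div_iff₀ hhp] at h1
    rw [div_lt_iff₀ hhp] at h2
    have hjJ : j ≤ J := by
      rw [hj, hJ]
      apply Nat.floor_le_floor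
      rw [div_le_iff₀ hhp]
      have h3 : 4 * L * h = T := by
        rw [hh]
        field_simp
      linarith
    refine ⟨T + j * h, hTj j, hjT j hjJ, hBt j t ?_ ?_⟩
    · have h3 : |t - (T + j * h)| ≤ h := by
        rw [abs_le]
        constructor <;> nlinarith
      refine h3.trans ?_
      rw [hh]
      have h4 : Real.log (T + j * (T / (4 * L))) ≤ L := by
        rw [hL]
        refine Real.log_le_log ?_ ?_
        · rw [← hL, ← hh]
          linarith [hTj j]
        · rw [← hL, ← hh]
          exact hjT j hjJ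
      have h5 : 0 < Real.log (T + j * (T / (4 * L))) := by
        rw [← hh]
        have := Real.log_le_log hTp (hTj j)
        linarith
      refine div_le_div₀ ?_ ?_ (by positivity) (by linarith)
      · rw [← hh]
        linarith [hTj j]
      · rw [← hh]
        exact hTj j
    · intro h3
      apply htB
      simp only [Set.mem_iUnion]
      exact ⟨j, Finset.mem_range.2 (Nat.lt_succ_of_le hjJ), h3⟩

end Pool.Agent.H903.GA
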